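import Pool.Agent.H28.NW.Targets

/-!
# FIN2: assembly of the energy argument and the end game on logarithmic windows

Adapted from the file of helper6.
-/

set_option autoImplicit false

open Finset Pool.Agent.H6.N4D Pool.Agent.H6.TP Filter Topology

namespace Pool.Agent.H64.NW.FIN

open Pool.Agent.H28.NW
open Pool.Agent.H93.EB (M phi lg ind)

lemma ev_mul (K e r : ℝ) (he : 0 < e) (hr : 0 < r) :
    ∀ᶠ x : ℝ in atTop, K * Real.log x ≤ e * x ^ r := by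
  have h1 := (isLittleO_log_rpow_atTop hr).bound
    (show (0 : ℝ) < e / (|K| + 1) by positivity)
  filter_upwards [h1, eventually_ge_atTop 1] with x h h3
  have h2 : 0 ≤ Real.log x := Real.log_nonneg h3
  rw [Real.norm_of_nonneg h2, Real.norm_of_nonneg (Real.rpow_nonneg (by linarith) _)] at h
  have hK : (0 : ℝ) < |K| + 1 := by positivity
  calc K * Real.log x ≤ (|K| + 1) * Real.log x := by
        apply mul_le_mul_of_nonneg_right _ h2
        linarith [le_abs_self K]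
    _ ≤ (|K| + 1) * (e / (|K| + 1) * x ^ r) := mul_le_mul_of_nonneg_left h hK.le
    _ = e * x ^ r := by field_simp

/-- for large windows everything of size `log log` is small -/
lemma big (K e : ℝ) (he : 0 < e) : ∃ X₀ : ℝ, ∀ (X : Wn), X₀ ≤ X.L →
    K ≤ Real.log X.T ∧ 1 ≤ Real.log X.T ∧ 1 ≤ X.L ∧
    K ≤ X.L ∧
    K * Real.log X.T ≤ X.T ^ (23 / 25 : ℝ) ∧
    K * Real.log X.T ≤ 2 * X.T ^ (191 / 200 : ℝ) ∧
    K * Real.log X.T ≤ e * X.L := by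
  have h1 := Real.tendsto_log_atTop.eventually (eventually_ge_atTop (max K 1))
  have h3 := ev_mul K 1 (23 / 25) one_pos (by norm_num)
  have h4 := ev_mul K 2 (191 / 200) two_pos (by norm_num)
  obtain ⟨X₀, h⟩ := eventually_atTop.1 (h1.and (h3.and h4))
  obtain ⟨X₁, h5⟩ := Wn.loglog_small (e / (|K| + 1)) (by positivity)
  refine ⟨max (max X₀ X₁) (max K 1), fun X hX => ?_⟩
  have hX0 : X₀ ≤ X.L := (le_max_left _ _).trans ((le_max_left _ _).trans hX)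
  have hX1 : X₁ ≤ X.L := (le_max_right _ _).trans ((le_max_left _ _).trans hX)
  have hXK : K ≤ X.L := (le_max_left _ _).trans ((le_max_right _ _).trans hX)
  have hXL : 1 ≤ X.L := (le_max_right _ _).trans ((le_max_right _ _).trans hX)
  obtain ⟨a1, a3, a4⟩ := h X.T (hX0.trans X.L_le_T)
  have a5 := h5 X hX1
  have hl1 : 1 ≤ Real.log X.T := (le_max_right _ _).trans a1
  refine ⟨(le_max_left _ _).trans a1, hl1, hXL, hXK, ?_, a4, ?_⟩
  · simpa using a3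
  · have hK : (0 : ℝ) < |K| + 1 := by positivity
    calc K * Real.log X.T ≤ (|K| + 1) * Real.log X.T := by
          apply mul_le_mul_of_nonneg_right _ (by linarith)
          linarith [le_abs_self K]
      _ ≤ (|K| + 1) * (e / (|K| + 1) * X.L) := mul_le_mul_of_nonneg_left a5 hK.le
      _ = e * X.L := by field_simp

/-- the energy is not almost maximal at the top scale -/
lemma top_contra (hFNL : W_FNL) (hSZK : W_SZK) (hTRN : W_TRN) : ∃ (κ X₀ : ℝ), 0 < κ ∧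
    ∀ (X : Wn) (lam : ℕ → ℝ), X₀ ≤ X.L → Lio lam → ∃ k : ℕ,
      (k : ℝ) ≤ 2 * X.T ^ (191 / 200 : ℝ) ∧ X.T ^ (23 / 25 : ℝ) ≤ k ∧
      wt lam X k ≤ phi (2 / Real.pi) - κ := by
  obtain ⟨κ, X₁, hκ, h1⟩ := hFNL
  obtain ⟨X₂, h2⟩ := hSZK
  obtain ⟨X₃, h3⟩ := big 1 1 one_pos
  obtain ⟨-, hM, hph, -⟩ := hTRN
  refine ⟨κ, max (max X₁ X₂) X₃, hκ, fun X lam hX hl => ?_⟩
  have hX1 : X₁ ≤ X.L := (le_max_left _ _).trans ((le_max_left _ _).trans hX)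
  have hX2 : X₂ ≤ X.L := (le_max_right _ _).trans ((le_max_left _ _).trans hX)
  obtain ⟨-, -, hL, -⟩ := h3 X ((le_max_right _ _).trans hX)
  obtain ⟨-, hk, k, hk1, hk2, hk3⟩ := h2 X hX2
  refine ⟨k, hk1, hk3, ?_⟩
  have h4 := h1 X (2 ^ k) lam hX1 hk2 (hk k hk1) hl
  unfold wt wlg
  rw [div_le_iff₀ (by linarith)]
  rw [hph]
  calc ∑ n ∈ Icc X.lo X.hi, phi (M lam (2 ^ k) n) / n =
      ∑ n ∈ Icc X.lo X.hi, ph (Mx lam (2 ^ k) n) / n := by
        refine Finset.sum_congr rfl fun n _ => ?_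
        rw [hph, hM]
    _ ≤ _ := h4

/-- structure at a small scale contradicts the end game -/
lemma core (hEN : W_EN) (hBAS : W_BAS)
    (hTPB : W_TOP) (hFNL : W_FNL) (hSZK : W_SZK) (hTRN : W_TRN) :
    ∃ (B s₁ : ℕ) (X₀ ε e₁ : ℝ), 1 ≤ B ∧ 0 < ε ∧ 0 < e₁ ∧
    ∀ (X : Wn) (s k₀ : ℕ) (lam : ℕ → ℝ), X₀ ≤ X.L → Lio lam → s₁ ≤ s → (B + 1) * s ≤ k₀ →
      Real.log X.T ≤ 2 ^ (s / B) → (k₀ : ℝ) ≤ e₁ * X.L →
      (k₀ : ℝ) ≤ 2 * X.T ^ (191 / 200 : ℝ) → (k₀ : ℝ) ≤ X.T ^ (23 / 25 : ℝ) →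
      phi (2 / Real.pi) - ε ≤ wt lam X k₀ → False := by
  obtain ⟨κ, X₁, hκ, h1⟩ := top_contra hFNL hSZK hTRN
  obtain ⟨B, hB, h2⟩ := hEN
  obtain ⟨e₂, he₂, h3⟩ := h2 (κ / 4) (by positivity)
  obtain ⟨δ, R, Q, hδ, h4⟩ := hBAS e₂ he₂
  obtain ⟨s₀, X₂, h5⟩ := h3 R
  obtain ⟨η, hη, h6⟩ := hTPB δ Q hδ
  obtain ⟨e₁, s₀', he₁, h7⟩ := h4 η hη
  obtain ⟨ε₃, k₀', X₃, hε₃, h8⟩ := h6 e₁ he₁
  refine ⟨B, max (max s₀ s₀') k₀', max X₁ (max X₂ X₃), min ε₃ (κ / 4), e₁, hB,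
    lt_min hε₃ (by positivity), he₁, fun X s k₀ lam hX hl hs hk hLL hk1 hk2 hk3 ht => ?_⟩
  have hs0 : s₀ ≤ s := (le_max_left _ _).trans ((le_max_left _ _).trans hs)
  have hs1 : s₀' ≤ s := (le_max_right _ _).trans ((le_max_left _ _).trans hs)
  have hs2 : k₀' ≤ s := (le_max_right _ _).trans hs
  have hX1 : X₁ ≤ X.L := (le_max_left _ _).trans hX
  have hX2 : X₂ ≤ X.L := (le_max_left _ _).trans ((le_max_right _ _).trans hX)
  have hX3 : X₃ ≤ X.L := (le_max_right _ _).trans ((le_max_right _ _).trans hX)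
  have hBs : s ≤ B * s := Nat.le_mul_of_pos_left s (by omega)
  have hk' : B * s + s ≤ k₀ := by
    have : (B + 1) * s = B * s + s := by ring
    omega
  obtain ⟨k, hka, hkb, hkc⟩ := h1 X lam hX1 hl
  have hStr := h8 X k₀ lam hX3 hl (by omega) hk2
    (by linarith [min_le_left ε₃ (κ / 4)])
  have hBase := h7 s k₀ X lam hs1 (by omega) hk1 hl.pm hStr
  have hkk : k₀ ≤ k := by
    have : (k₀ : ℝ) ≤ k := hk3.trans hkb
    exact_mod_cast this
  have := h5 s X lam hs0 hX2 hl hLL hBase k₀ k (by omega) hkk hka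
  linarith [min_le_right ε₃ (κ / 4)]

theorem pf_FIN2 (hEN : W_EN) (hBAS : W_BAS)
    (hSTG : W_STG) (hTPB : W_TOP) (hFNL : W_FNL)
    (hSZK : W_SZK) (hTRN : W_TRN) : W_FIN2 := by
  obtain ⟨B, s₁, X₁, ε, e₁, hB, hε, he₁, h1⟩ := core hEN hBAS hTPB hFNL hSZK hTRN
  obtain ⟨c₁, H₀, hc₁, h3⟩ := hSTG ((B + 1) * B) ε (Nat.mul_pos (by omega) (by omega)) hε
  refine ⟨c₁, H₀, hc₁, fun H hH => ?_⟩
  obtain ⟨X₂, h4⟩ := h3 H hH
  set D : ℕ := (B + 1) * B with hD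
  have hDpos : 0 < D := by positivity
  obtain ⟨X₃, h5⟩ := big (max 2 ((2 : ℝ) ^ (s₁ + 1) + 1)) e₁ he₁
  refine ⟨max X₁ (max X₂ X₃), fun X lam hX hl => ?_⟩
  have hX1 : X₁ ≤ X.L := (le_max_left _ _).trans hX
  have hX2 : X₂ ≤ X.L := (le_max_left _ _).trans ((le_max_right _ _).trans hX)
  have hX3 : X₃ ≤ X.L := (le_max_right _ _).trans ((le_max_right _ _).trans hX)
  obtain ⟨b1, b2, b3, b4, b5, b6, b7⟩ := h5 X hX3
  by_contra hcon
  push Not at hcon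
  obtain ⟨k, hk1, hk2, hk3⟩ := h4 X lam hX2 hl hcon.le
  set l : ℝ := Real.log X.T with hldef
  have hk4 : (k : ℝ) ≤ 2 * l := by
    have h6 : Real.log ((2 : ℝ) ^ k) ≤ l :=
      Real.log_le_log (by positivity) (hk2.trans X.L_le_T)
    rw [Real.log_pow] at h6
    have h7 : (0.69 : ℝ) < Real.log 2 := by linarith [Real.log_two_gt_d9]
    have h8 : (0 : ℝ) ≤ k := Nat.cast_nonneg _
    nlinarith
  have hk5 : (k : ℝ) ≤ max 2 ((2 : ℝ) ^ (s₁ + 1) + 1) * l :=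
    hk4.trans (mul_le_mul_of_nonneg_right (le_max_left _ _) (by linarith))
  -- k is large
  have hs0 : s₁ + 1 ≤ k / D := by
    by_contra hlt
    push Not at hlt
    have h6 : (2 : ℝ) ^ (k / D) ≤ 2 ^ (s₁ + 1) := pow_le_pow_right₀ (by norm_num) hlt.le
    have h7 : (2 : ℝ) ^ (s₁ + 1) + 1 ≤ l := (le_max_right _ _).trans b1
    linarith
  set s : ℕ := k / (B + 1) with hs
  have hsB : s / B = k / D := by rw [hs, Nat.div_div_eq_div_mul, hD]
  have hs1 : s₁ ≤ s := by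
    have : s / B ≤ s := Nat.div_le_self _ _
    omega
  have hs2 : (B + 1) * s ≤ k := Nat.mul_div_le _ _
  have hfin : l ≤ 2 ^ (s / B) := by
    rw [hsB]
    exact hk1
  exact h1 X s k lam hX1 hl hs1 hs2 hfin (hk5.trans b7) (hk5.trans b6) (hk5.trans b5) hk3

end Pool.Agent.H64.NW.FIN
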